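import Pool.Agent.W92_960bf8.Fin

/-!
# Square and diamond do not imply the proxy principle at inaccessible cardinals

From an indestructibly supercompact cardinal (`SQ.IsIndSC`, `Pool/Agent/W92_960bf8/Ind.lean`) we get a countable well-founded model `(M, E)` of
ZFC (`HESR.IsZFC`) with an inaccessible cardinal `k` such that `□(k)` and `◇(k)` hold and `P⁻(k,k,⊑,1,{k},k)` fails (`PXY.SqDiaNotPrx`,
`Pool/Agent/W_MP_960bf8_h40/Stmt.lean`).
-/

set_option autoImplicit false

universe u

namespace Pool.Agent.Results.MP_960bf8_lc.FailsAtInaccessible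

/-- If there is an indestructibly supercompact cardinal then there is a countable well-founded model of ZFC in which, for some inaccessible
cardinal `k`, `□(k)` and `◇(k)` hold and `P⁻(k,k,⊑,1,{k},k)` fails. -/
theorem result (κ : Cardinal.{u}) (hκ : SQ.IsIndSC κ) :
    ∃ (M : Type (u + 1)) (E : M → M → Prop), Countable M ∧ WellFounded E ∧ HESR.IsZFC E ∧
      PXY.SqDiaNotPrx E :=
  SQ.model_of_ind hκ

end Pool.Agent.Results.MP_960bf8_lc.FailsAtInaccessible
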