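import Pool.Agent.W_MP_960bf8_lc.Main

/-!
# Square and diamond imply the proxy principle at every successor cardinal above `ℵ₁`

For every cardinal `lam > ℵ₀`, the principles `□(lam⁺)` and `◇(lam⁺)` imply
`P⁻(lam⁺, μ, ⊑, 1, {lam⁺}, μ)` for every `μ ≥ 2`; in particular for `μ = lam⁺`, which is the
principle of the question, and for `μ = 2`, which is the stronger instance.
-/

namespace Pool.Agent.Results.MP_960bf8_lc.SuccessorCase

open Set Cardinal Pool.Agent.W_MP_960bf8_lc

universe u

/-- For every uncountable cardinal `lam` and every `μ ≥ 2`, square and diamond at the successor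
cardinal of `lam` imply the proxy principle `P⁻(lam⁺, μ, ⊑, 1, {lam⁺}, μ)`. -/
theorem result (lam : Cardinal.{u}) (h : ℵ₀ < lam)
    (hsq : Square (Order.succ lam)) (hd : Diamond (Order.succ lam))
    (μ : Cardinal.{u}) (hμ : 2 ≤ μ) : Proxy (Order.succ lam) μ := by
  obtain ⟨C, hC, hthread⟩ := hsq
  obtain ⟨g, hg, hgood⟩ := exists_gap h C hC hthread hd
  exact proxy_of_gap C hC hg hgood μ hμ

end Pool.Agent.Results.MP_960bf8_lc.SuccessorCase
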